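import Pool.Agent.Helper32.FR.Defs
import Pool.Agent.Helper84.BA.Pt

/-!
# Project FR, module D1: `PP` implies that small families of functions are bounded
-/

set_option autoImplicit false

namespace Pool.Agent.Helper32.FR

open Pool.Agent.Helper33.HM Pool.Agent.Helper94.BA Filter

universe u

variable {B : Type u} [CompleteBooleanAlgebra B]

theorem h77fr_ae_decV (x : ℕ → B) : ∀ᶠ φ in aeB B, ∀ n k,
    (φ (decV x n k) ↔ (∃ j ≤ k, φ (x (Nat.pair n j))) ∨ ∀ j, ¬ φ (x (Nat.pair n j))) := by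
  filter_upwards [ae_forall fun n : ℕ => ae_forall fun k : ℕ =>
      ae_iSup fun j : ℕ => ⨆ _ : j ≤ k, x (Nat.pair n j),
    ae_forall fun n : ℕ => ae_iInf fun j : ℕ => (x (Nat.pair n j))ᶜ] with φ h1 h2 n k
  unfold decV
  rw [Pt.sup, h1, h2]
  simp only [Pt.iSup_prop, Pt.compl, exists_prop]

theorem h77fr_ae_leStar (f g : ℕ → ℕ → B) : ∀ᶠ φ in aeB B,
    (φ (leStar f g) ↔ ∃ m : ℕ, ∀ n, m ≤ n → ∀ k, φ (g n k) → φ (f n k)) := by
  filter_upwards [ae_iSup fun m : ℕ => ⨅ n : ℕ, ⨅ _ : m ≤ n, ⨅ k : ℕ, g n k ⇨ f n k,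
    ae_forall fun m : ℕ => ae_iInf fun n : ℕ => ⨅ _ : m ≤ n, ⨅ k : ℕ, g n k ⇨ f n k,
    ae_forall fun n : ℕ => ae_iInf fun k : ℕ => g n k ⇨ f n k] with φ h1 h2 h3
  unfold leStar
  rw [h1]
  refine exists_congr fun m => ?_
  rw [h2]
  simp only [Pt.iInf_prop, h3, Pt.himp]

/-- Small families of functions are bounded. -/
theorem bdg_of_pp (hp : PP B) : Bdg B := by
  intro ι g
  let y : ι ⊕ ℕ → ℕ → B := fun w c => Sum.elim
    (fun i => ⨆ j : ℕ, ⨆ _ : j ≤ (Nat.unpair c).1, (decV (g i) j (Nat.unpair c).2)ᶜ)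
    (fun k => ⨆ _ : (Nat.unpair c).1 < k, (⊤ : B)) w
  have hl : ∀ i, ∀ᶠ φ in aeB B, ∀ c, (φ (y (Sum.inl i) c) ↔
      ∃ j ≤ (Nat.unpair c).1, ¬ φ (decV (g i) j (Nat.unpair c).2)) := by
    intro i
    filter_upwards [ae_forall fun c : ℕ => ae_iSup fun j : ℕ =>
      ⨆ _ : j ≤ (Nat.unpair c).1, (decV (g i) j (Nat.unpair c).2)ᶜ] with φ h c
    show φ (⨆ j : ℕ, ⨆ _ : j ≤ (Nat.unpair c).1, (decV (g i) j (Nat.unpair c).2)ᶜ) ↔ _
    rw [h]
    simp only [Pt.iSup_prop, Pt.compl, exists_prop]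
  have hr : ∀ k c (φ : Pt B), φ (y (Sum.inr k) c) ↔ (Nat.unpair c).1 < k := by
    intro k c φ
    show φ (⨆ _ : (Nat.unpair c).1 < k, (⊤ : B)) ↔ _
    rw [Pt.iSup_prop]
    simp
  have hw : ∀ w, ∀ᶠ φ in aeB B, ∀ᶠ n in atTop, ∀ᶠ m in atTop,
      ¬ φ (y w (Nat.pair n m)) := by
    rintro (i | k)
    · filter_upwards [hl i, h77fr_ae_decV (g i)] with φ h1 h2
      refine Eventually.of_forall fun n => ?_
      have h3 : ∀ᶠ m in atTop, ∀ j ∈ Finset.range (n + 1), φ (decV (g i) j m) := by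
        rw [eventually_all_finset]
        intro j _
        by_cases h4 : ∃ l, φ (g i (Nat.pair j l))
        · obtain ⟨l, hl'⟩ := h4
          filter_upwards [eventually_ge_atTop l] with m hm
          rw [h2]
          exact Or.inl ⟨l, hm, hl'⟩
        · refine Eventually.of_forall fun m => ?_
          rw [h2]
          exact Or.inr fun l hl' => h4 ⟨l, hl'⟩
      filter_upwards [h3] with m hm
      rw [h1]
      rintro ⟨j, hj, h5⟩
      rw [Nat.unpair_pair] at hj h5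
      exact h5 (hm j (Finset.mem_range.2 (Nat.lt_succ_of_le hj)))
    · refine Eventually.of_forall fun φ => ?_
      filter_upwards [eventually_ge_atTop k] with n hn
      refine Eventually.of_forall fun m => ?_
      rw [hr, Nat.unpair_pair]
      exact not_lt.2 hn
  obtain ⟨z, hz, hzy⟩ := hp (ι ⊕ ℕ) y (by
    intro s m0
    refine eq_top_of_ae ?_
    filter_upwards [ae_iSup fun n : ℕ => ⨆ _ : m0 ≤ n, ⨅ j : ι ⊕ ℕ, ⨅ _ : j ∈ s, (y j n)ᶜ,
      ae_forall fun n : ℕ => ae_iInf fun j : ι ⊕ ℕ => ⨅ _ : j ∈ s, (y j n)ᶜ,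
      ae_forall fun w : {w // w ∈ s} => hw w.1] with φ h1 h2 h3
    rw [h1]
    have h4 : ∀ᶠ n in atTop, ∀ w ∈ s, ∀ᶠ m in atTop, ¬ φ (y w (Nat.pair n m)) := by
      rw [eventually_all_finset]
      exact fun w hw' => h3 ⟨w, hw'⟩
    obtain ⟨n, hn, hn0⟩ := (h4.and (eventually_ge_atTop m0)).exists
    rw [← eventually_all_finset] at hn
    obtain ⟨m, hm⟩ := hn.exists
    refine ⟨Nat.pair n m, ?_⟩
    rw [Pt.iSup_prop]
    refine ⟨hn0.trans (Nat.left_le_pair n m), ?_⟩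
    rw [h2]
    intro w
    rw [Pt.iInf_prop]
    intro hws
    rw [Pt.compl]
    exact hm w hws)
  refine ⟨fun c => ⨆ n' : ℕ, ⨆ _ : (Nat.unpair c).1 ≤ n', z (Nat.pair n' (Nat.unpair c).2),
    fun i => ?_⟩
  refine eq_top_of_ae ?_
  unfold lsV
  filter_upwards [h77fr_ae_leStar (decV (g i)) (decV fun c => ⨆ n' : ℕ,
      ⨆ _ : (Nat.unpair c).1 ≤ n', z (Nat.pair n' (Nat.unpair c).2)),
    h77fr_ae_decV (g i),
    h77fr_ae_decV fun c => ⨆ n' : ℕ,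
      ⨆ _ : (Nat.unpair c).1 ≤ n', z (Nat.pair n' (Nat.unpair c).2),
    ae_forall fun c : ℕ => ae_iSup fun n' : ℕ =>
      ⨆ _ : (Nat.unpair c).1 ≤ n', z (Nat.pair n' (Nat.unpair c).2),
    ae_finV z, ae_finV (z ⊓ y (Sum.inl i)), ae_forall fun k : ℕ => ae_finV (z ⊓ y (Sum.inr k)),
    hl i] with φ h1 h2 h3 h4 h5 h6 h7 h8
  rw [h1]
  rw [hz] at h5
  have h9 : ∀ m, ∃ n, m ≤ n ∧ φ (z n) := by
    intro m
    by_contra hcon
    push Not at hcon
    exact φ.bot' (h5.2 ⟨m, hcon⟩)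
  rw [hzy (Sum.inl i)] at h6
  obtain ⟨m, hm⟩ := h6.1 φ.top'
  simp only [Pi.inf_apply, Pt.inf] at hm
  refine ⟨m, fun n hmn k hk => ?_⟩
  rw [h3] at hk
  rcases hk with ⟨j, hjk, hj⟩ | hk
  · rw [h4, Nat.unpair_pair] at hj
    obtain ⟨n', hn'⟩ := hj
    rw [Pt.iSup_prop] at hn'
    obtain ⟨hnn', hzn⟩ := hn'
    dsimp only at hnn' hzn
    have h10 := hm _ (hmn.trans (hnn'.trans (Nat.left_le_pair n' j)))
    have h11 : ¬ φ (y (Sum.inl i) (Nat.pair n' j)) := fun h => h10 ⟨hzn, h⟩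
    rw [h8, Nat.unpair_pair] at h11
    have h12 : φ (decV (g i) n j) := by
      by_contra hcon
      exact h11 ⟨n, hnn', hcon⟩
    rw [h2] at h12 ⊢
    rcases h12 with ⟨l, hl1, hl2⟩ | h12
    · exact Or.inl ⟨l, hl1.trans hjk, hl2⟩
    · exact Or.inr h12
  · exfalso
    have h13 := h7 n
    rw [hzy (Sum.inr n)] at h13
    obtain ⟨m', hm'⟩ := h13.1 φ.top'
    obtain ⟨c, hc, hzc⟩ := h9 m'
    have h14 := hm' c hc
    simp only [Pi.inf_apply, Pt.inf, hr] at h14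
    refine hk (Nat.unpair c).2 ?_
    rw [h4, Nat.unpair_pair]
    refine ⟨(Nat.unpair c).1, ?_⟩
    rw [Pt.iSup_prop]
    refine ⟨?_, ?_⟩
    · by_contra hcon
      exact h14 ⟨hzc, not_le.1 hcon⟩
    · dsimp only
      rw [Nat.pair_unpair]
      exact hzc

end Pool.Agent.Helper32.FR
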